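import Pool.Agent.H14.STV.Win
import Pool.Agent.H23.D2.Lpy

/-!
# The ball charts of a coordinate of the list, target of any kind

`recL_winsR`, `recL_ballsR`, `recL_lipR`: as `RecL.wins`, `RecL.balls`, `RecL.lip`, from the record of a
target of any kind.
-/

set_option autoImplicit false

namespace Pool.STV

open Finset Real MvPolynomial
open Pool.Agent.H49.Ent Pool.Agent.H32.Dense Pool.STK Pool.KA Pool.KSAT Pool.K2S Pool.PB Pool.S6C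
open Pool.GEN Pool.CHT Pool.CHX Pool.ISO Pool.D2R Pool.D2F
open Pool.LBT (LSys Slo Tri ThrOf fl_le' bas_false)
open Pool.LEV (Law)
open Pool.FLF (Fam.sub)
open Pool.JTN (TgP)
open Pool.PKG (RecL PtI KdQ Kd)

/-- **The windows of the list coordinate** `c l`, `1 ≤ l < i`, as the target. -/
theorem recL_winsR (m l S₂ : ℕ) (hl : 1 ≤ l) (hS₂ : 1 ≤ S₂) : ∃ D : ℕ, 1 ≤ D ∧ ∀ Dr : ℕ,
    D ≤ Dr → ∃ C CB : ℝ, 1 ≤ C ∧ 1 ≤ CB ∧ ∀ {i : ℕ} {S : PCl m}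
    {P P₂ : List (Fin m) × Fin m → ℝ → ℝ → ℝ} {θ θ₂ : ℝ} {c : ℕ → Fin m} {Pt : ℝ → ℝ → ℝ}
    {L T : ℕ → ℝ → ℝ → ℝ} {Sl : ℕ → ℝ} {kd : ℕ → Kd} {S₀ N : ℕ} {A V : ℕ → ℝ} {N' : ℕ}
    {V' : ℕ → ℝ} {Eb e₂ Eb' e' K ε q t : ℝ}, l < i →
    RecR S P P₂ θ θ₂ c i Pt L T Sl kd S₀ N A V S₂ N' V' Eb e₂ K ε q t →
    Pool.PKG.RecL S P θ c l L S₀ N A V S₂ N' V' Eb' e' K q t → S₀ ≤ S₂ → 0 ≤ ε →
    ∀ (A' y r' : ℝ) (N₁ N₂ M : ℕ) (v : ℕ → ℝ) (Rg : ℕ → Prop), 1 ≤ K → 0 < y →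
    4 * (C * y) ≤ 1 → 4 * (C * ε) ≤ y → 0 < r' → N₁ ≤ N₂ → A' ≤ K →
    (∀ k ≤ N₁, ∃ j < N, A j = A' ∧ V j = v k) → (∀ k ≤ N₂, -K + 1 ≤ v k ∧ v k < A') →
    (∀ k, N₁ < k → k ≤ N₂ → ∃ j < N', V' j = v k) →
    (∀ j < l, Rg j → kd j = .one ∨ kd j = .thin) →
    ∃ (K₁ : ℝ) (b : ℕ → ℕ → ℝ), 0 < K₁ ∧ ∀ κ : ℝ, 0 < κ → Bas S (fun J F A₀ =>
      ∀ z : ℕ → ℕ → ℕ, (∀ k ≤ N₂, ∀ p ≤ M, r' * q * J ≤ z k p ∧
        z k p ≤ ⌊(t + A' * q) * J⌋₊ - ⌊(t + v k * q) * J⌋₊) →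
      ∃ (B : F.Ω → Prop) (gc gT g₀ : ℕ → ℕ → ℕ)
        (G : ℕ → PtT F → ℕ → MvPolynomial (Option (Fin m)) ℝ)
        (H : ℕ → LnT F → ℕ → MvPolynomial (Option (Fin m)) ℝ)
        (Th : ℕ → PtT F → ℕ → MvPolynomial (Option (Fin m)) ℝ)
        (TH : ℕ → LnT F → ℕ → MvPolynomial (Option (Fin m)) ℝ)
        (Gt : ℕ → PtT F → MvPolynomial (Option (Fin m)) ℝ)
        (Ht : ℕ → LnT F → MvPolynomial (Option (Fin m)) ℝ), Sub B A₀ ∧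
        Pe F.p A₀ ≤ K₁ * Pe F.p B ∧
        Wins F c l D Dr N₁ M Rg C (t + A' * q) Eb' (y * q) (fun k => t + v k * q)
          (fun _ => 3 * ε * q)
          (fun k => L l (t + A' * q) (t + v k * q) - 2 * (C * (y * q)))
          (fun _ => y * q) (fun _ => y * q) (fun k j => L j (t + v k * q) (t + v k * q))
          (fun k j => L j (t + A' * q) (t + v k * q)) b κ z B gc gT g₀ G H Th TH Gt Ht ∧
        WinB F c l D Dr N₂ M CB (t + A' * q) Eb' (y * q) (fun k => t + v k * q)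
          (fun _ => y * q) (fun _ => y * q) (fun k j => L j (t + v k * q) (t + v k * q)) b κ z B
          g₀ G H) := by
  obtain ⟨D, hD, hcon⟩ := wins_q m l S₂ hl hS₂
  refine ⟨D, hD, fun Dr hDr => ?_⟩
  obtain ⟨C, CB, hC, hCB, hcon⟩ := hcon Dr hDr
  refine ⟨C, CB, hC, hCB, ?_⟩
  intro i S P P₂ θ θ₂ c Pt L T Sl kd S₀ N A V N' V' Eb e₂ Eb' e' K ε q t hli R RL hS hε A' y r'
    N₁ N₂ M v Rg hK hy hCy hCε hr' hNN hAK hmn hvK hch hRg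
  have hbe : ∀ j ≤ l, L j = bet P c j := fun j hj => by
    rw [R.lv j (by omega)]
    funext a w
    unfold lvN
    rw [if_pos (by omega)]
  have hlv : ∀ j ≤ l, lvN P c l (bet P c l) j = L j := fun j hj => by
    rw [hbe j hj]
    funext a w
    unfold lvN
    split_ifs with h1
    · rfl
    · rw [show j = l by omega]
  obtain ⟨K₁, b, hK₁, hbas⟩ := hcon (Pt := bet P c l) (Eb := Eb') (K := K) (ε := ε) (q := q)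
    (t := t) R.thr R.th0
    R.tmh (R.inj.mono fun x hx => by rw [Set.mem_Iio] at hx ⊢; omega) (R.thr.law _) RL.Eb0 R.q0
    R.t0 R.t1 (fun j hj x hx => by
      rw [hlv j hj]
      exact RL.room j hj x hx) hε A' y r' N₁ N₂ M v Rg hK hy hCy hCε hr' hNN hAK (fun k hk => by
      obtain ⟨j, hj, hA, hV⟩ := hmn k hk
      have := (RL.pt j hj).1
      rwa [hA, hV] at this) (fun k hk => by
      rcases Nat.lt_or_ge N₁ k with h | h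
      · obtain ⟨j, hj, hV⟩ := hch k h hk
        have := (RL.ptc j hj).mono hS
        rwa [hV] at this
      · obtain ⟨j, hj, hA, hV⟩ := hmn k h
        have := (RL.pt j hj).2
        rwa [hV] at this) hvK (fun k hk p hp hRp => by
      obtain ⟨j, hj, hA, hV⟩ := hmn k hk
      obtain ⟨h1, h2⟩ := hvK k (by omega)
      have := (R.winD hj (by rw [hV]; linarith) (by rw [hA, hV]; exact h2) (by rw [hA]; exact hAK)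
        (ε' := 3 * ε * q) le_rfl hε (Rg := fun p => p < l ∧ Rg p)
        (fun p _ h => hRg p h.1 h.2)).rgh p (by omega) ⟨hp, hRp⟩
      rwa [hA, hV] at this)
  refine ⟨K₁, b, hK₁, fun κ hκ => Bas.mono 0 (hbas κ hκ) ?_⟩
  rintro J - F A₀ hA z hz
  obtain ⟨B, gc, gT, g₀, G, H, Th, TH, Gt, Ht, k1, k2, k3, k4⟩ := hA z hz
  rw [hbe l le_rfl]
  refine ⟨B, gc, gT, g₀, G, H, Th, TH, Gt, Ht, k1, k2, k3.lvc (fun k _ j hj => ?_)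
    (fun k _ j hj => ?_), k4.lvc fun k _ j hj => ?_⟩
  · show L j _ _ = _
    rw [hlv j hj]
  · show L j _ _ = _
    rw [hbe j hj.le]
  · show L j _ _ = _
    rw [hlv j hj]

/-- **The ball charts of the coordinate** `c j` **of the list.** -/
theorem recL_ballsR (m j S₂ : ℕ) (hj : 1 ≤ j) (hS₂ : 1 ≤ S₂) : ∃ D : ℕ, 1 ≤ D ∧
    ∃ C : ℝ, 1 ≤ C ∧ ∀ (y gp : ℝ), 0 < y → 0 < gp → ∃ ε₀ : ℝ, 0 < ε₀ ∧ ∀ {i : ℕ} {S : PCl m}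
    {P P₂ : List (Fin m) × Fin m → ℝ → ℝ → ℝ} {θ θ₂ : ℝ} {c : ℕ → Fin m} {Pt : ℝ → ℝ → ℝ}
    {L T : ℕ → ℝ → ℝ → ℝ} {Sl : ℕ → ℝ} {kd : ℕ → Kd} {S₀ N : ℕ} {A V : ℕ → ℝ} {N' : ℕ}
    {V' : ℕ → ℝ} {Eb e₂ Eb' e' K ε q t : ℝ}, j < i →
    RecR S P P₂ θ θ₂ c i Pt L T Sl kd S₀ N A V S₂ N' V' Eb e₂ K ε q t →
    Pool.PKG.RecL S P θ c j L S₀ N A V S₂ N' V' Eb' e' K q t → S₀ ≤ S₂ → 0 ≤ ε → ε ≤ ε₀ →
    1 ≤ K → ∀ (A' : ℝ) (N₁ : ℕ) (v : ℕ → ℝ), A' ≤ K →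
    (∀ k ≤ N₁, -K + 1 ≤ v k ∧ v k + gp ≤ A') → (∀ k ≤ N₁, ∃ j < N, A j = A' ∧ V j = v k) →
    ∃ K₁ : ℝ, 0 < K₁ ∧ Bas S (fun J F A₀ =>
      ∃ (B : F.Ω → Prop) (e : ℕ) (g : ℕ → ℕ → ℕ)
        (G : ℕ → PtT F → ℕ → MvPolynomial (Option (Fin m)) ℝ)
        (H : ℕ → LnT F → ℕ → MvPolynomial (Option (Fin m)) ℝ), Sub B A₀ ∧
        Pe F.p A₀ ≤ K₁ * Pe F.p B ∧ (e : ℝ) ≤ (Eb' + y * q) * J ∧
        ∀ k ≤ N₁, ChOK F c (j + 1) (fun _ => D) ⌊(t + v k * q) * J⌋₊ ⌊(t + v k * q) * J⌋₊ e (g k)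
            B (G k) (H k) ∧
          ∀ l ≤ j, L l (t + v k * q) (t + v k * q) * J - y * q * J ≤ g k l ∧
            (g k l : ℝ) ≤ L l (t + v k * q) (t + v k * q) * J) := by
  obtain ⟨D, hD, hwin⟩ := recL_winsR m j S₂ hj hS₂
  obtain ⟨C, CB, hC, hCB, hwin⟩ := hwin D le_rfl
  refine ⟨D, hD, C, hC, ?_⟩
  intro y gp hy hgp
  obtain ⟨y₀, hy₀⟩ : ∃ y₀ : ℝ, y₀ = min (y / 2) (1 / (4 * C)) := ⟨_, rfl⟩
  have hC0 : 0 < C := by linarith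
  have hy0 : 0 < y₀ := by
    rw [hy₀]
    exact lt_min (by positivity) (by positivity)
  have hy1 : y₀ ≤ y / 2 := by rw [hy₀]; exact min_le_left _ _
  have hy2 : 4 * (C * y₀) ≤ 1 := by
    have : y₀ ≤ 1 / (4 * C) := by rw [hy₀]; exact min_le_right _ _
    rw [le_div_iff₀ (by positivity)] at this
    linarith
  refine ⟨y₀ / (4 * C), by positivity, ?_⟩
  intro i S P P₂ θ θ₂ c Pt L T Sl kd S₀ N A V N' V' Eb e₂ Eb' e' K ε q t hji R RL hSS hε hεε hK A'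
    N₁ v hAK hv hmn
  have hq := R.q0
  have hε4 : 4 * (C * ε) ≤ y₀ := by
    rw [le_div_iff₀ (by positivity)] at hεε
    linarith
  have hgq : 0 < gp / 2 * q := by positivity
  obtain ⟨K₁, b, hK₁, hbas⟩ := hwin hji R RL hSS hε A' y₀ (gp / 2) N₁ N₁ 0 v (fun _ => False) hK
    hy0 hy2 hε4 (by positivity) le_rfl hAK hmn (fun k hk => ⟨(hv k hk).1, by
      linarith [(hv k hk).2]⟩) (fun k h1 h2 => by omega) (fun l _ h => h.elim)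
  obtain ⟨J₁, hJ₁⟩ := exists_nat_ge (2 / (gp * q))
  refine ⟨K₁, hK₁, Bas.mono J₁ (hbas 1 one_pos) ?_⟩
  rintro J hJ F A₀ hA
  have hJ0 : (0 : ℝ) ≤ J := Nat.cast_nonneg J
  have hgJ : 2 ≤ gp * q * J := by
    have h1 : 2 / (gp * q) ≤ (J : ℝ) := hJ₁.trans (by exact_mod_cast hJ)
    rw [div_le_iff₀ (by positivity)] at h1
    linarith
  have ht0 := R.t0
  have hpos : ∀ k ≤ N₁, 0 ≤ t + v k * q ∧ t + v k * q + gp * q ≤ t + A' * q := by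
    intro k hk
    obtain ⟨h1, h2⟩ := hv k hk
    have h3 := mul_le_mul_of_nonneg_right h1 hq.le
    have h4 := mul_le_mul_of_nonneg_right h2 hq.le
    constructor <;> nlinarith
  obtain ⟨B, gc, gT, g₀, G, H, Th, TH, Gt, Ht, k1, k2, W, -⟩ := hA
    (fun k _ => ⌊(t + A' * q) * J⌋₊ - ⌊(t + v k * q) * J⌋₊) (fun k hk p _ => by
    obtain ⟨h1, h2⟩ := hpos k hk
    have h3 : (t + v k * q) * (J : ℝ) + gp * q * J ≤ (t + A' * q) * J := by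
      have := mul_le_mul_of_nonneg_right h2 hJ0
      linarith
    have h4 : (⌊(t + v k * q) * (J : ℝ)⌋₊ : ℝ) ≤ (t + v k * q) * J :=
      Nat.floor_le (mul_nonneg h1 hJ0)
    have h5 : (t + A' * q) * (J : ℝ) - 1 < ⌊(t + A' * q) * (J : ℝ)⌋₊ := Nat.sub_one_lt_floor _
    have h6 : ⌊(t + v k * q) * (J : ℝ)⌋₊ ≤ ⌊(t + A' * q) * (J : ℝ)⌋₊ :=
      Nat.floor_le_floor (by linarith)
    refine ⟨?_, le_rfl⟩
    rw [Nat.cast_sub h6]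
    linarith)
  have hyJ : y₀ * q * J ≤ y * q * J := by
    have h1 : y₀ ≤ y := by linarith
    exact mul_le_mul_of_nonneg_right (mul_le_mul_of_nonneg_right h1 hq.le) hJ0
  have hE0 : 0 ≤ Eb' := RL.Eb0.le
  refine ⟨B, ⌊(Eb' + y₀ * q + y₀ * q) * J⌋₊, g₀, G, H, k1, k2, ?_, fun k hk => ⟨?_, ?_⟩⟩
  · refine (Nat.floor_le (by positivity)).trans (mul_le_mul_of_nonneg_right ?_ hJ0)
    have := mul_le_mul_of_nonneg_right hy1 hq.le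
    linarith
  · exact (W.evs k hk).ball
  · intro l hl
    obtain ⟨-, -, t3, t4, -, -⟩ := W.g_num hk hl
    exact ⟨by linarith, t4⟩

open Pool.TN (CEv gG cev_lip) in
open Pool.ISO in
/-- **The gradients of the ball charts of the places of the list.** -/
theorem recL_lipR (m j S₂ : ℕ) (hj : 1 ≤ j) (hj3 : j < 3) (hS₂ : 1 ≤ S₂) : ∃ D' : ℕ, 1 ≤ D' ∧
    ∀ Dr : ℕ, D' ≤ Dr → ∀ (y gp : ℝ), 0 < y → 0 < gp → ∃ ε₀ y₁ : ℝ, 0 < ε₀ ∧ 0 < y₁ ∧ y₁ ≤ y ∧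
    ∀ {i : ℕ} {S : PCl m}
    {P P₂ : List (Fin m) × Fin m → ℝ → ℝ → ℝ} {θ θ₂ : ℝ} {c : ℕ → Fin m} {Pt : ℝ → ℝ → ℝ}
    {L T : ℕ → ℝ → ℝ → ℝ} {Sl : ℕ → ℝ} {kd : ℕ → Kd} {S₀ N : ℕ} {A V : ℕ → ℝ} {N' : ℕ}
    {V' : ℕ → ℝ} {Eb e₂ Eb' e' K ε q t : ℝ}, j < i →
    RecR S P P₂ θ θ₂ c i Pt L T Sl kd S₀ N A V S₂ N' V' Eb e₂ K ε q t →
    Pool.PKG.RecL S P θ c j L S₀ N A V S₂ N' V' Eb' e' K q t → S₀ ≤ S₂ → 0 ≤ ε → ε ≤ ε₀ →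
    1 ≤ K → ∀ (A' : ℝ) (N₁ : ℕ) (v : ℕ → ℝ), A' ≤ K →
    (∀ k ≤ N₁, -K + 1 ≤ v k ∧ v k + gp ≤ A') → (∀ k ≤ N₁, ∃ j < N, A j = A' ∧ V j = v k) →
    ∃ K₁ : ℝ, 0 < K₁ ∧ Bas S (fun J F A₀ =>
      ∃ (B₁ : F.Ω → Prop) (eL : ℕ), Sub B₁ A₀ ∧ Pe F.p A₀ ≤ K₁ * Pe F.p B₁ ∧
        (eL : ℝ) ≤ (Eb' + y * q) * J ∧
        ∀ {D M A₁ cl : ℕ} {Sc : ℕ → Prop} {e h pp : ℕ → ℕ} {z g gc gT g₀ : ℕ → ℕ → ℕ} {κ : ℝ}
          {B : F.Ω → Prop} {G : ℕ → PtT F → ℕ → MvPolynomial (Option (Fin m)) ℝ}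
          {H : ℕ → LnT F → ℕ → MvPolynomial (Option (Fin m)) ℝ}
          {Th : ℕ → PtT F → ℕ → MvPolynomial (Option (Fin m)) ℝ}
          {TH : ℕ → LnT F → ℕ → MvPolynomial (Option (Fin m)) ℝ}
          {Gt : ℕ → PtT F → MvPolynomial (Option (Fin m)) ℝ}
          {Ht : ℕ → LnT F → MvPolynomial (Option (Fin m)) ℝ},
          CEv F c i D Dr N₁ M A₁ cl Sc (fun k => ⌊(t + v k * q) * J⌋₊) e h pp z g gc gT g₀ κ B G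
            H Th TH Gt Ht → D ≤ Dr → Sub B B₁ → 0 ≤ κ → κ * (4 * 4 ^ j) * (2 * 4 ^ j) ^ N₁ ≤ 1 →
          (∀ k ≤ N₁, (h k : ℝ) ≤ y₁ * q * J ∧
            ∀ l ≤ j, |(g₀ k l : ℝ) - L l (t + v k * q) (t + v k * q) * J| ≤ y₁ * q * J) →
          ∃ B' : F.Ω → Prop, Sub B' B ∧ Pe F.p B ≤ (2 * 4 ^ j) ^ (N₁ + 1) * Pe F.p B' ∧
            ∀ ω, B' ω → ∀ k ≤ N₁, ∀ l ≤ j, ∀ x < l, |gG G ω k l (some (c x))| ≤
              2 ^ (eL + nlp (g₀ k) x l)) := by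
  obtain ⟨D, hD, C, hC, hbal⟩ := recL_ballsR m j S₂ hj hS₂
  refine ⟨D, hD, fun Dr hDr => ?_⟩
  obtain ⟨Cl, hCl, hlip⟩ := cev_lip m Dr j (hD.trans hDr) hj3
  have hClR : (1 : ℝ) ≤ Cl := by exact_mod_cast hCl
  intro y gp hy hgp
  obtain ⟨y₁, hy₁⟩ : ∃ y₁ : ℝ, y₁ = y / (16 * Cl) := ⟨_, rfl⟩
  have hy₁0 : 0 < y₁ := by rw [hy₁]; positivity
  have hy₁e : Cl * y₁ = y / 16 := by rw [hy₁]; field_simp
  have hy₁y : y₁ ≤ y / 16 := by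
    rw [← hy₁e]
    exact le_mul_of_one_le_left hy₁0.le hClR
  obtain ⟨ε₀, hε₀, hbal⟩ := hbal y₁ gp hy₁0 hgp
  refine ⟨ε₀, y₁, hε₀, hy₁0, by linarith, ?_⟩
  intro i S P P₂ θ θ₂ c Pt L T Sl kd S₀ N A V N' V' Eb e₂ Eb' e' K ε q t hji R RL hSS hε hεε hK A'
    N₁ v hAK hv hmn
  obtain ⟨K₁, hK₁, hbas⟩ := hbal hji R RL hSS hε hεε hK A' N₁ v hAK hv hmn
  have hq := R.q0
  obtain ⟨J₁, hJ₁⟩ := exists_nat_ge (2 * Cl / (y * q))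
  refine ⟨K₁, hK₁, Bas.mono J₁ hbas ?_⟩
  rintro J hJ F A₀ ⟨B₁, e₁, g', G', H', k1, k2, k3, k4⟩
  have hJ0 : (0 : ℝ) ≤ J := Nat.cast_nonneg J
  have hyJ : 2 * (Cl : ℝ) ≤ y * q * J := by
    have h1 : 2 * (Cl : ℝ) / (y * q) ≤ (J : ℝ) := hJ₁.trans (by exact_mod_cast hJ)
    rw [div_le_iff₀ (by positivity)] at h1
    linarith
  have hE0 : 0 ≤ Eb' := RL.Eb0.le
  obtain ⟨Q, hQ⟩ : ∃ Q : ℝ, Q = q * J := ⟨_, rfl⟩
  have hQ0 : 0 ≤ Q := by rw [hQ]; positivity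
  have hyQ : y * q * J = y * Q := by rw [hQ]; ring
  have hyQ1 : y₁ * q * J = y₁ * Q := by rw [hQ]; ring
  have e1 : (Cl : ℝ) * (y₁ * Q) = y / 16 * Q := by rw [← hy₁e]; ring
  have e2 : y₁ * Q ≤ y / 16 * Q := mul_le_mul_of_nonneg_right hy₁y hQ0
  have e3 : 0 ≤ y₁ * Q := mul_nonneg hy₁0.le hQ0
  obtain ⟨Y, hY⟩ : ∃ Y : ℕ, Y = ⌊2 * (y₁ * Q)⌋₊ := ⟨_, rfl⟩
  have hY1 : (Y : ℝ) ≤ 2 * (y₁ * Q) := by
    rw [hY]
    exact Nat.floor_le (by linarith)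
  have hYle : ∀ {a b : ℕ}, (a : ℝ) ≤ b + 2 * (y₁ * Q) → a ≤ b + Y := by
    intro a b h
    have h1 : 2 * (y₁ * Q) < (Y : ℝ) + 1 := by
      rw [hY]
      exact Nat.lt_floor_add_one _
    have h2 : (a : ℝ) < ((b + Y + 1 : ℕ) : ℝ) := by
      push_cast
      linarith
    have h3 : a < b + Y + 1 := by exact_mod_cast h2
    omega
  rw [hyQ] at hyJ
  refine ⟨B₁, e₁ + Cl * (Y + 1), k1, k2, ?_, ?_⟩
  · push_cast
    have h1 : (Cl : ℝ) * Y ≤ Cl * (2 * (y₁ * Q)) := mul_le_mul_of_nonneg_left hY1 (by linarith)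
    have h2 : (Eb' + y₁ * q) * J = Eb' * J + y₁ * Q := by rw [hQ]; ring
    have h3 : (Eb' + y * q) * J = Eb' * J + y * Q := by rw [hQ]; ring
    rw [h2] at k3
    rw [h3]
    linarith
  · intro D₂ M A₁ cl Sc e h pp z g gc gT g₀ κ B G H Th TH Gt Ht E hDD hBB hκ hκ1 hnum
    rw [hyQ1] at hnum
    obtain ⟨B', l1, l2, l3⟩ := hlip E (D' := D) (e' := e₁) (Y := Y) (g' := g') (G' := G')
      (H' := H') hji.le hDD hDr (fun k hk => (k4 k hk).1.sub hBB) (fun k hk => by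
        have h1 := (hnum k hk).1
        have := hYle (a := h k) (b := 0) (by
          push_cast
          linarith)
        omega) (fun k hk l hl => by
        have h1 := abs_le.1 ((hnum k hk).2 l hl)
        obtain ⟨h2, h3⟩ := (k4 k hk).2 l hl
        rw [hyQ1] at h2
        exact ⟨hYle (by linarith), hYle (by linarith)⟩) hκ hκ1
    exact ⟨B', l1, l2, fun ω hω k hk => (l3 ω hω k hk).2⟩

end Pool.STV
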