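import Pool.Agent.H14.STV.Apn
import Pool.Agent.H95.STV.Lpr
import Pool.Agent.H95.R136.Capl
import Pool.Agent.H95.R136.Rrl

/-!
# The event of the windows and the numbers of the list, target of any kind

`cevRL`: as `cevNL`; `RecR.rl`: as `RecQ.rl`.
-/

set_option autoImplicit false

namespace Pool.STV

open Finset Real MvPolynomial
open Pool.Agent.H49.Ent Pool.Agent.H32.Dense Pool.STK Pool.KA Pool.KSAT Pool.K2S Pool.PB Pool.S6C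
open Pool.GEN Pool.CHT Pool.CHX Pool.ISO Pool.D2R Pool.D2Z Pool.D2F Pool.AFT Pool.PKG Pool.TN
open Pool.LBT (ThrOf)
open Pool.FLF (Fam.sub)

/-- **The event of a static cell with its numbers** and the gradients up to the list place `j`. -/
theorem cevRL (m i j S₂ : ℕ) (hi3 : i ≤ 3) (hj : 1 ≤ j) (hji : j < i) (hS₂ : 1 ≤ S₂) :
    ∃ D D' : ℕ, 1 ≤ D ∧ D ≤ D' ∧
    ∀ Dr : ℕ, D' ≤ Dr → ∀ (Sl : ℕ → ℝ) (y gp : ℝ), 0 < y → y ≤ 1 / 8 → 0 < gp →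
    (∀ l, 1 ≤ l → l ≤ 2 → l < i → 1 < Sl l) → (i = 3 → Sl 0 < Sl 1 ∧ Sl 0 < Sl 2) →
    ∃ (n₀ : ℕ) (s ε₀ y' : ℝ), 1 ≤ n₀ ∧ 0 < s ∧ (n₀ + 1) * s ≤ gp ∧ 0 < ε₀ ∧ 0 < y' ∧ y' ≤ y ∧
    ∀ {S : PCl m} {P P₂ : List (Fin m) × Fin m → ℝ → ℝ → ℝ} {θ θ₂ : ℝ} {c : ℕ → Fin m}
    {Pt : ℝ → ℝ → ℝ} {L T : ℕ → ℝ → ℝ → ℝ} {kd : ℕ → Kd} {S₀ N : ℕ} {Al V : ℕ → ℝ} {N' : ℕ}
    {V' : ℕ → ℝ} {Eb e₂ K ε q t : ℝ},
    RecR S P P₂ θ θ₂ c i Pt L T Sl kd S₀ N Al V S₂ N' V' Eb e₂ K ε q t → S₀ ≤ S₂ → 0 ≤ ε →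
    ε ≤ ε₀ → 1 ≤ K → ∀ {Eb' e' : ℝ},
    RecL S P θ c j L S₀ N Al V S₂ N' V' Eb' e' K q t →
    ∀ (A' r' : ℝ) (N₁ M : ℕ) (v : ℕ → ℝ) (Sc : ℕ → Prop), A' ≤ K → 0 < r' →
    (∀ k ≤ N₁, -K + 1 ≤ v k ∧ v k + gp ≤ A') → (∀ k ≤ N₁, ∃ j < N, Al j = A' ∧ V j = v k) →
    (∀ k ≤ N₁, ∀ j, 1 ≤ j → j ≤ n₀ → ∃ j' < N', V' j' = v k + j * s) →
    (∀ l < i, ¬ Sc l → kd l = .one ∨ kd l = .thin) → (∀ l < i, Sc l → kd l = .sta) →
    ∃ K₁ : ℝ, 0 < K₁ ∧ ∀ κ : ℝ, 0 < κ → Bas S (fun J F A₀ =>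
      ∀ (w : ℕ → ℕ) (A cl : ℕ), (∀ k, w k = ⌊(t + v k * q) * J⌋₊) → A = ⌊(t + A' * q) * J⌋₊ →
      cl = ⌊y' * q * J⌋₊ → ∀ z : ℕ → ℕ → ℕ,
      (∀ k ≤ N₁, ∀ p ≤ M, r' * (q * J) ≤ z k p ∧ z k p + w k ≤ A) →
      ∃ (B : F.Ω → Prop) (e h pp : ℕ → ℕ) (g gc gT g₀ : ℕ → ℕ → ℕ) (eL : ℕ)
        (G : ℕ → PtT F → ℕ → MvPolynomial (Option (Fin m)) ℝ)
        (H : ℕ → LnT F → ℕ → MvPolynomial (Option (Fin m)) ℝ)
        (Th : ℕ → PtT F → ℕ → MvPolynomial (Option (Fin m)) ℝ)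
        (TH : ℕ → LnT F → ℕ → MvPolynomial (Option (Fin m)) ℝ)
        (Gt : ℕ → PtT F → MvPolynomial (Option (Fin m)) ℝ)
        (Ht : ℕ → LnT F → MvPolynomial (Option (Fin m)) ℝ), Sub B A₀ ∧
        Pe F.p A₀ ≤ K₁ * Pe F.p B ∧
        CEv F c i D Dr N₁ M A cl Sc w e h pp z g gc gT g₀ κ B G H Th TH Gt Ht ∧
        ((∃ pf : ℕ → ℕ, ApN i N₁ J A cl Sc w e pf g gc gT g₀ (q * J) y' (t * J) (Eb * J) K A' v Sl
          (fun l => L l t t * J)) ∧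
        ∀ k ≤ N₁, L i t t * J + Sl i * v k * (q * J) - 4 * (y' * (q * J)) ≤ pp k) ∧ (eL : ℝ) ≤ Eb' * J + q * J ∧
        ∀ k ≤ N₁, ∀ ω, B ω → ∀ l ≤ j, ∀ x < l,
          |gG G ω k l (some (c x))| ≤ 2 ^ (eL + nlp (g₀ k) x l)) := by
  obtain ⟨D, hD, hcev⟩ := RecR.cev m i S₂ (by omega) hi3 hS₂
  obtain ⟨D₁, hD₁, hlip⟩ := recL_lipR m j S₂ hj (by omega) hS₂
  refine ⟨D, max D D₁, hD, le_max_left _ _, ?_⟩
  intro Dr hDr Sl y gp hy0 hy1 hgp hs1 hs3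
  have hDr1 : D ≤ Dr := (le_max_left _ _).trans hDr
  obtain ⟨ε₁, y₁, hε₁, hy₁0, hy₁y, hlip⟩ := hlip Dr ((le_max_right _ _).trans hDr) y gp hy0 hgp
  obtain ⟨n₀, s, ε₀, hn₀, hs, hns, hε₀, hcev⟩ := hcev Dr hDr1 Sl y₁ gp hy₁0 (hy₁y.trans hy1) hgp
    hs1 hs3
  refine ⟨n₀, s, min (min ε₀ ε₁) (y₁ / 4), y₁, hn₀, hs, hns,
    lt_min (lt_min hε₀ hε₁) (by positivity), hy₁0, hy₁y, ?_⟩
  intro S P P₂ θ θ₂ c Pt L T kd S₀ N Al V N' V' Eb e₂ K ε q t R hSS hε hεε hK Eb' e' RL A' r' N₁ M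
    v Sc hAK hr' hv hm hch hSc hst
  have hεa := hεε.trans (min_le_left _ _)
  obtain ⟨K₁, hK₁, hcev⟩ := hcev R hSS hε (hεa.trans (min_le_left _ _)) hK A' r' N₁ M v Sc hAK hr'
    hv hm hch hSc
  obtain ⟨K₂, hK₂, hlip⟩ := hlip hji R RL hSS hε (hεa.trans (min_le_right _ _)) hK A' N₁ v hAK hv
    hm
  have hpw1 : (0 : ℝ) < (2 * 4 ^ j) ^ (N₁ + 1) := by positivity
  have hpw2 : (0 : ℝ) < 4 * 4 ^ j * (2 * 4 ^ j) ^ N₁ := by positivity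
  refine ⟨K₂ * K₁ * (2 * 4 ^ j) ^ (N₁ + 1), by positivity, fun κ hκ => ?_⟩
  obtain ⟨κ', hκ'⟩ : ∃ κ', κ' = min (κ * (1 / (2 * 4 ^ j) ^ (N₁ + 1)))
    (1 / (4 * 4 ^ j * (2 * 4 ^ j) ^ N₁)) := ⟨_, rfl⟩
  have hκ'0 : 0 < κ' := by
    rw [hκ']
    exact lt_min (by positivity) (by positivity)
  have hκ'1 : κ' ≤ κ * (1 / (2 * 4 ^ j) ^ (N₁ + 1)) := by rw [hκ']; exact min_le_left _ _
  have hκ'2 : κ' * (4 * 4 ^ j) * (2 * 4 ^ j) ^ N₁ ≤ 1 := by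
    have h1 : κ' ≤ 1 / (4 * 4 ^ j * (2 * 4 ^ j) ^ N₁) := by rw [hκ']; exact min_le_right _ _
    rw [le_div_iff₀ hpw2] at h1
    rw [mul_assoc]
    exact h1
  have hq := R.q0
  have hyq : 0 < y₁ * q := mul_pos hy₁0 hq
  obtain ⟨J₁, hJ₁⟩ := exists_nat_ge (2 / (y₁ * q))
  refine Bas.mono J₁ ((bas_ev (hcev κ' hκ'0) (show 0 < 1 / K₂ by positivity)).and hlip) ?_
  rintro J hJ F A₀ ⟨hA, hL⟩ w A cl hw hA' hcl z hz
  have hw' : w = fun k => ⌊(t + v k * q) * J⌋₊ := funext hw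
  subst hw' hA' hcl
  have hJR : (J₁ : ℝ) ≤ J := by exact_mod_cast hJ
  have hyU : 2 ≤ y₁ * (q * J) := by
    have h4 := hJ₁.trans hJR
    rw [div_le_iff₀ hyq] at h4
    linarith only [h4]
  obtain ⟨B₁, eL, hB₁, hP₁, heL, hL⟩ := hL
  obtain ⟨B, e, h, pp, g, gc, gT, g₀, G, H, Th, TH, Gt, Ht, hBA, hBP, E, hnum⟩ := hA B₁ hB₁ (by
      rw [div_mul_eq_mul_div, one_mul, div_le_iff₀ hK₂]
      linarith only [hP₁]) z
    fun k hk p hp => by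
      obtain ⟨h1, h2⟩ := hz k hk p hp
      refine ⟨?_, Nat.le_sub_of_add_le h2⟩
      have : r' * q * J = r' * (q * J) := by ring
      rw [this]
      exact h1
  obtain ⟨B', b1, b2, b3⟩ := hL E hDr1 hBA hκ'0.le hκ'2 fun k hk =>
    ⟨(hnum k hk).1.2, fun l hl => ((hnum k hk).2.2.1 l (by omega)).1⟩
  have hap := apR_of R hy₁0 (hεε.trans (min_le_right _ _)) hAK (N₁ := N₁) (v := v)
    (fun k hk => ⟨by linarith only [(hv k hk).1], by linarith only [(hv k hk).2, hgp]⟩)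
    hm (Sc := Sc) hst hyU E hnum
  refine ⟨B', e, h, pp, g, gc, gT, g₀, eL, G, H, Th, TH, Gt, Ht,
    fun ω hω => hB₁ ω (hBA ω (b1 ω hω)), ?_, E.sb b1 ?_ hκ.le hκ'1, hap, ?_,
    fun k hk ω hω => b3 ω hω k hk⟩
  · calc Pe F.p A₀ ≤ K₂ * Pe F.p B₁ := hP₁
      _ ≤ K₂ * (K₁ * Pe F.p B) := mul_le_mul_of_nonneg_left hBP hK₂.le
      _ ≤ K₂ * (K₁ * ((2 * 4 ^ j) ^ (N₁ + 1) * Pe F.p B')) :=
        mul_le_mul_of_nonneg_left (mul_le_mul_of_nonneg_left b2 hK₁.le) hK₂.le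
      _ = _ := by ring
  · rw [div_mul_eq_mul_div, one_mul, div_le_iff₀ hpw1]
    linarith only [b2]
  · have h1 : (Eb' + y * q) * J = Eb' * J + y * (q * J) := by ring
    have h2 : 0 ≤ q * (J : ℝ) := mul_nonneg hq.le (Nat.cast_nonneg J)
    have h3 : y * (q * J) ≤ 1 * (q * J) := mul_le_mul_of_nonneg_right (by linarith only [hy1]) h2
    rw [h1] at heL
    linarith only [heL, h3]


/-- **The rational points** of a thin coordinate `l` of the list. -/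
theorem RecR.rl {m : ℕ} {S : PCl m} {P P₂ : List (Fin m) × Fin m → ℝ → ℝ → ℝ} {θ θ₂ : ℝ}
    {c : ℕ → Fin m} {i : ℕ} {Pt : ℝ → ℝ → ℝ} {L T : ℕ → ℝ → ℝ → ℝ} {Sl : ℕ → ℝ} {kd : ℕ → Kd}
    {S₀ N : ℕ} {Al V : ℕ → ℝ} {S₂ N' : ℕ} {V' : ℕ → ℝ} {Eb e₂ K ε q t : ℝ}
    (R : RecR S P P₂ θ θ₂ c i Pt L T Sl kd S₀ N Al V S₂ N' V' Eb e₂ K ε q t) {l : ℕ}
    (hl : l < i) (hkd : kd l = .thin) {Eb' e' : ℝ}
    (RL : RecL S P θ c l L S₀ N Al V S₂ N' V' Eb' e' K q t) {y : ℝ}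
    (hy : 0 < y) (hy1 : y ≤ 1 / 1000) (hεy : ε ≤ y / 4) (hK : 3 ≤ K) {j : ℕ} (hj : j < N)
    (hA : Al j = 1) (hV : V j = 0) : ∃ a w' : ℚ, t + q < a ∧ (a : ℝ) < t + 2 * q ∧ t < w' ∧
      (w' : ℝ) < t + q ∧ 0 ≤ w' ∧ w' ≤ a ∧ a < 1 ∧ e' < θ * w' ∧
      bet P c l a w' + y * q ≤ 1 ∧ ∀ J : ℕ, (⌊(bet P c l a w' + y * q) * J⌋₊ : ℝ) ≤
        L l t t * J + q * J + 5 * (y * (q * J)) := by
  have hq := R.q0
  have hyq : 0 < y * q := mul_pos hy hq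
  obtain ⟨dr, hdr, hrat⟩ := RL.rat j hj (y * q) hyq
  rw [hA, hV, one_mul, zero_mul, add_zero] at hrat
  have mdr : 0 < min dr q := lt_min hdr hq
  obtain ⟨w', hw1, hw2⟩ := exists_rat_btwn (show t < t + min dr q by linarith only [mdr])
  obtain ⟨a, ha1, ha2⟩ := exists_rat_btwn (show t + q < t + q + min dr q by
    linarith only [mdr])
  have m1 := min_le_left dr q
  have m2 := min_le_right dr q
  have ht0 := R.t0
  have ht1 := R.t1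
  have hKq : 3 * q ≤ K * q := mul_le_mul_of_nonneg_right hK hq.le
  have r1 := hrat a w' ha1.le (by linarith only [ha2, m1]) hw1.le
    (by linarith only [hw2, m1]) (by linarith only [hw2, ha1, m2])
  have bx : ∀ x : ℝ, t ≤ x → x ≤ t + 2 * q → |x - t| ≤ K * q := fun x h4 h5 => by
    rw [abs_le]
    exact ⟨by linarith only [h4, hKq, hq], by linarith only [h5, hKq, hq]⟩
  have hthin := R.kd l hl
  rw [hkd] at hthin
  have h3 := hthin.2 (t + q) t (by linarith only [hKq, hq]) (by linarith only [hq])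
    (by linarith only [hKq, hq])
  have h4 := abs_le.1 (R.dT l hl.le t (bx t le_rfl (by linarith only [hq])))
  rw [sub_self, mul_zero, sub_zero] at h4
  have h5 := mul_le_mul_of_nonneg_right hεy hq.le
  have h6 : bet P c l a w' + y * q ≤ L l t t + q + 5 * (y * q) := by
    linarith only [r1, h3, h4.2, h5, hyq]
  have hyq1 : y * q ≤ q / 1000 := by
    have := mul_le_mul_of_nonneg_right hy1 hq.le
    linarith only [this]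
  have e3K : 3 * K * q = 3 * (K * q) := by ring
  have hlow : t ≤ L l t t := by
    have h1 := RecR.lowL R (x := 0) (Or.inl ⟨j, hj, hV⟩) (by linarith only [ht0, hKq, hq])
      (by linarith only [ht1, hKq, hq]) l hl.le
    rw [zero_mul, add_zero] at h1
    exact h1
  have hroom := RL.room l le_rfl t (bx t le_rfl (by linarith only [hq]))
  have hEb := RL.Eb0
  have ha3 : (a : ℝ) < 1 := by linarith only [ha2, m2, ht1, hKq, hq]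
  have hw3 : (0 : ℝ) ≤ w' := by linarith only [hw1, ht0, hKq, hq]
  have hwa : (w' : ℝ) ≤ a := by linarith only [hw2, ha1, m2]
  refine ⟨a, w', ha1, by linarith only [ha2, m2], hw1, by linarith only [hw2, m2],
    by exact_mod_cast hw3, by exact_mod_cast hwa, by exact_mod_cast ha3,
    RL.eθ w' (bx _ hw1.le (by linarith only [hw2, m2, hq])), ?_, fun J => ?_⟩
  · linarith only [h6, hroom, hEb, e3K, hKq, hyq1, hq]
  · have hJ0 : (0 : ℝ) ≤ J := Nat.cast_nonneg J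
    have h7 := mul_le_mul_of_nonneg_right h6 hJ0
    have e1 : (L l t t + q + 5 * (y * q)) * J = L l t t * J + q * J +
        5 * (y * (q * J)) := by ring
    rw [e1] at h7
    rcases le_total 0 ((bet P c l a w' + y * q) * (J : ℝ)) with h8 | h8
    · exact (Nat.floor_le h8).trans h7
    · rw [Nat.floor_of_nonpos h8, Nat.cast_zero]
      have h10 : 0 ≤ L l t t * J := mul_nonneg (by
        linarith only [hlow, ht0, hKq, hq]) hJ0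
      have h11 : 0 ≤ q * (J : ℝ) := mul_nonneg hq.le hJ0
      have h12 : 0 ≤ y * (q * J) := mul_nonneg hy.le (mul_nonneg hq.le hJ0)
      linarith only [h10, h11, h12]

end Pool.STV
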