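import Pool.Agent.H95.STV.T2
import Pool.Agent.H95.STV.T3
import Pool.Agent.H14.STV.Cls

/-!
# The slope of a static place two over a thin place one

`celV_ts`: there is no cell `[one, thin, sta]` of static slope above two. `thin1_two`: a place two which
is not thin has slope two, if place one is thin with a slope above one. For targets of any kind.
-/

set_option autoImplicit false

namespace Pool.STV

open MeasureTheory Set Filter Topology
open Pool.Agent.H49.Ent Pool.Agent.H32.Dense Pool.STK Pool.KA Pool.KSAT Pool.K2S Pool.PB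
open Pool.GEN Pool.S6C Pool.STAT Pool.CHT Pool.GRW Pool.ONE Pool.STA
open Pool.LBT (LSys ThrOf)
open Pool.LEV (Law)
open Pool.TOP (TopS)
open Pool.STR (ThinAt SteepAt StaAt)
open Pool.PKG

/-- **The cells** `[one, thin, sta]` of static slope above two are void. -/
theorem celV_ts {n : ℕ} {Sl : ℕ → ℝ} {κ : ℕ → Kd} (k0 : κ 0 = .one) (k1 : κ 1 = .thin)
    (k2 : κ 2 = .sta) (h0 : Sl 0 = 1) (h1 : 1 < Sl 1) (h2 : 2 < Sl 2) : CelV n 3 Sl κ := by
  by_cases h : Sl 2 = 1 + Sl 1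
  · exact celV_ts3 k0 k1 k2 h0 h1 h
  · exact celV_ts2 k0 k1 k2 h0 h1 h2 h

variable {n : ℕ} {hn : 2 ≤ n} {S : PCl n} {P : ℝ → ℝ → ℝ} {r : ℝ → ℝ}
  {P' : ℕ → List (Fin n) × Fin n → ℝ → ℝ → ℝ} {Λ : Finset (Fin n) → Fin n → ℝ → ℝ → ℝ}
  {PB : ℕ → List (Fin n) × Fin n → ℝ → ℝ → ℝ}

/-- **A static place two over a thin place one has slope two.** -/
theorem thin1_two (H : PkT hn S P r P' Λ PB) (hTop : TopS n) (hF : FZX (n - 1))
    (h3 : 3 ≤ n - 1) : ∀ᵐ g : ℝ, ∀ o : Od n, g ∈ Gs P r P' Λ o →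
      (∀ l < 3, ThS hn P P' PB o l g) → ThN hn P P' PB o 1 g → 1 < slN hn P P' o 1 g →
      ¬ ThN hn P P' PB o 2 g → slN hn P P' o 2 g = 2 := by
  have hone : ∀ᵐ g : ℝ, ∀ o : Od n, g ∈ Gs P r P' Λ o →
      deriv (fun a => LvL hn P P' o 0 a a) g = 1 := ae_all_iff.2 fun o => one_zero H hTop hF o
  filter_upwards [void_of H hTop hF, slo_two H hTop hF, hone]
    with g h1 h4 h5 o ho hths hn1 hs1 hn2
  obtain ⟨hst, h2le⟩ := h4 o ho 2 (by omega) (fun k hk => hths k (by omega)) (hths 2 (by omega)) hn2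
  by_contra hcon
  have hlt : 2 < slN hn P P' o 2 g := lt_of_le_of_ne h2le (Ne.symm hcon)
  obtain ⟨κ, hκ⟩ : ∃ κ : ℕ → Kd, κ = fun l => if l = 0 then .one else if l = 1 then .thin else
    .sta := ⟨_, rfl⟩
  have hκ0 : κ 0 = .one := by rw [hκ]; rfl
  have hκ1 : κ 1 = .thin := by rw [hκ]; rfl
  have hκ2 : κ 2 = .sta := by rw [hκ]; rfl
  refine h1 o ho 3 (by norm_num) h3 κ (fun l hl => ?_) (celV_ts hκ0 hκ1 hκ2 ?_ ?_ ?_)
  · have h6 : l = 0 ∨ l = 1 ∨ l = 2 := by omega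
    rcases h6 with rfl | rfl | rfl
    · rw [hκ0]
      exact h5 o ho
    · rw [hκ1]
      refine ⟨?_, hn1⟩
      rw [← slN_lvl o (by omega)]
      exact hs1
    · rw [hκ2]
      refine ⟨?_, hst⟩
      rw [← slN_lvl o (by omega)]
      exact h2le
  · rw [slN_slL o (by omega), slN_lvl o (by omega)]
    exact h5 o ho
  · rw [slN_slL o (by omega)]
    exact hs1
  · rw [slN_slL o (by omega)]
    exact hlt

end Pool.STV
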